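import Pool.Agent.V7H79.EH.Weighted
import Pool.Agent.V7H79.EH.Brackets2
import Pool.Agent.TH872.An2

/-!
# Level of distribution `N / exp (K (log log N) ^ 2)` along random integers whose Fourier coefficients are small at the
frequencies with many digits: random digits with exchangeable blocks, rearrangements of digits, words of brackets

The primes have the level of distribution `N / exp (K (log log N) ^ 2)`, so more than `N ^ θ` for every `θ < 1`, in almost
all the residue classes `v` for EVERY random integer `v`, however thin its support is, whose characteristic function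
`E e(v α)` is small at the `α = t / b ^ k` with more than `D log k` digits different from their neighbours and from `0` and
`b - 1`; it can be large at the about `exp (D' (log log N) ^ 2)` other fractions.  This holds for example for words of `k`
random digits of any distribution for which after every beginning two blocks of `L` digits can be exchanged, such as
balanced words of brackets of `m` types, and for the random rearrangements of the digits of an arbitrary integer.

Proof.  Let `Λ_z` be the model of the von Mangoldt function with the small primes up to a power of `log N`.  The second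
moment of the correlation of `Λ - Λ_z` with an arbitrary bounded function at the random displacement `v` is small by the
theorem on digital laws from the starting files (`Pool.Agent.W93.AU.two_law`).  This is put into the chain of
`Pool.Agent.V7H38.EH.Chain` for families of residues (which is from the starting files `Pool.Agent.W93.LV`,
`Pool.Agent.TH212.EH`), by an approximation of the random integer by a family.
-/

set_option autoImplicit false

namespace Pool.Agent.Results.MP_a78e8f_nt.DigitalLawsH79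

open Finset

/-- `ψ(x; q, a) - x / φ(q)`, where `ψ(x; q, a)` is the sum of `Λ(n)` over the `1 ≤ n ≤ x` with `n ≡ a (mod q)`. -/
noncomputable def E (x q : ℕ) (a : ℤ) : ℝ :=
  ∑ n ∈ (Icc 1 x).filter (fun n : ℕ => (n : ℤ) ≡ a [ZMOD q]), ArithmeticFunction.vonMangoldt n -
    (x : ℝ) / Nat.totient q

/-- `N / exp (K (log log N) ^ 2)` -/
noncomputable def level (K N : ℕ) : ℝ := N / Real.exp (K * Real.log (Real.log N) ^ 2)

/-- `τ(q)`, the number of the divisors of `q` -/
noncomputable def τ (q : ℕ) : ℝ := q.divisors.card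

open Classical in
/-- The primes up to `B N` have the level of distribution `N / exp (K (log log N) ^ 2)` along the random integer `v` (the
integer `v ω` has the probability `p ω`):

* for every function `λ` on the moduli with `|λ(q)| ≤ (τ(q) log N) ^ T`, with a probability of at least `1 - 1 / log ^ U N`,
  `v ≤ 0` or the sum of `λ(q) E(x; q, v)` over the `q ≤ Q` coprime to `v` is at most `N / log ^ U N` in absolute value for
  ALL `Q ≤ N / exp (K (log log N) ^ 2)` and ALL `x ≤ B N`; and the same for all `Q`, if the length `x = x(q) ≤ B N` is an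
  arbitrary function of the modulus;
* for all coefficients `|c ω| ≤ log ^ T N` and all functions `x(q) ≤ B N`, the sum over the
  `q ≤ N / exp (K (log log N) ^ 2)` of `τ(q) ^ T` times the ABSOLUTE VALUE of the expectation of `c E(x(q); q, v)` over the
  event that `v > 0` is coprime to `q` is at most `N / log ^ U N`. -/
def Level (K N B T U : ℕ) {Ω : Type} [Fintype Ω] (p : Ω → ℝ) (v : Ω → ℤ) : Prop :=
  (∀ lam : ℕ → ℝ, (∀ q, |lam q| ≤ (τ q * Real.log N) ^ T) →
    ∑ ω ∈ univ.filter (fun ω => 0 < v ω ∧ ∃ Q : ℕ, (Q : ℝ) ≤ level K N ∧ ∃ x : ℕ, x ≤ B * N ∧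
      N / Real.log N ^ U < |∑ q ∈ (Icc 1 Q).filter (fun q : ℕ => Int.gcd (v ω) q = 1), lam q * E x q (v ω)|), p ω ≤
        1 / Real.log N ^ U ∧
    ∀ x : ℕ → ℕ, (∀ q, x q ≤ B * N) →
    ∑ ω ∈ univ.filter (fun ω => 0 < v ω ∧ ∃ Q : ℕ, (Q : ℝ) ≤ level K N ∧
      N / Real.log N ^ U < |∑ q ∈ (Icc 1 Q).filter (fun q : ℕ => Int.gcd (v ω) q = 1), lam q * E (x q) q (v ω)|), p ω ≤
        1 / Real.log N ^ U) ∧
  (∀ c : Ω → ℝ, (∀ ω, |c ω| ≤ Real.log N ^ T) → ∀ x : ℕ → ℕ, (∀ q, x q ≤ B * N) →
    ∑ q ∈ Icc 1 ⌊level K N⌋₊, τ q ^ T *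
      |∑ ω ∈ univ.filter (fun ω => 0 < v ω ∧ Int.gcd (v ω) q = 1), p ω * c ω * E (x q) q (v ω)| ≤ N / Real.log N ^ U)

/-- The number of the `j < K` for which the digits number `j` and `j + 1` of `t` in base `b` are neither both `0` nor both
`b - 1`. -/
def rough (b K t : ℕ) : ℕ :=
  ((range K).filter (fun j => ¬ ((t / b ^ j % b = 0 ∧ t / b ^ (j + 1) % b = 0) ∨
    (t / b ^ j % b = b - 1 ∧ t / b ^ (j + 1) % b = b - 1)))).card

/-- `p` is a probability on the finite set `Ω`, and the characteristic function of the random integer `v` is at most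
`1 / K ^ V` at all the `t / b ^ (K + 1)` for which the digits of `F t` fulfil `rough b K (F t) ≥ D (⌊log_b K⌋ + 1)`. -/
structure Digital (b F D V K : ℕ) {Ω : Type} [Fintype Ω] (p : Ω → ℝ) (v : Ω → ℤ) : Prop where
  nonneg : ∀ ω, 0 ≤ p ω
  sum : ∑ ω, p ω = 1
  small : ∀ t : ℕ, D * (Nat.log b K + 1) ≤ rough b K (F * t) →
    ‖∑ ω, (p ω : ℂ) * Complex.exp (2 * Real.pi * Complex.I * (v ω * t / (b : ℂ) ^ (K + 1)))‖ ≤ 1 / (K : ℝ) ^ V

/-- The probability, for the distribution `μ` on the words of `k` digits (the integers `v < b ^ k`), that the word begins with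
the `i` digits of `u < b ^ i`. -/
noncomputable def begins (b k : ℕ) (μ : ℕ → ℝ) (i u : ℕ) : ℝ := ∑ w ∈ range (b ^ (k - i)), μ (u * b ^ (k - i) + w)

/-- `p` is a probability on the words of `k` digits in base `b`, read as integers `v < b ^ k`. There is another probability
`μ` with `p ≤ k ^ T μ` such that after every beginning `u` two different blocks `a`, `a'` of `L` digits can be exchanged:
`p (u a w) = r p (u a' w)` for all endings `w`, with a factor `r` between `η` and `1 / η` which does not depend on `w`; and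
given the beginning `u`, each of the two blocks comes next with a probability of at least `η` in the distribution `μ`.
(This is the notion of the starting file `ExchangeablePositions` of `MP_54969a_nt`.) -/
structure Exchangeable (b L : ℕ) (η : ℝ) (T k : ℕ) (p : ℕ → ℝ) : Prop where
  nonneg : ∀ v, 0 ≤ p v
  sum : ∑ v ∈ range (b ^ k), p v = 1
  dominated : ∃ μ : ℕ → ℝ, (∀ v, 0 ≤ μ v) ∧ ∑ v ∈ range (b ^ k), μ v = 1 ∧ (∀ v < b ^ k, p v ≤ (k : ℝ) ^ T * μ v) ∧
    ∀ i u : ℕ, i + L ≤ k → u < b ^ i → ∃ (a a' : ℕ) (r : ℝ), a < a' ∧ a' < b ^ L ∧ η ≤ r ∧ η * r ≤ 1 ∧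
      (∀ w < b ^ (k - (i + L)), p ((b ^ L * u + a) * b ^ (k - (i + L)) + w) = r * p ((b ^ L * u + a') * b ^ (k - (i + L)) + w)) ∧
      η * begins b k μ i u ≤ begins b k μ (i + L) (b ^ L * u + a) ∧
      η * begins b k μ i u ≤ begins b k μ (i + L) (b ^ L * u + a')

/-- The `k` digits of `v` in base `b`, the most significant one first. -/
def word (b : ℕ) : ℕ → ℕ → List ℕ
  | 0, _ => []
  | k + 1, v => word b k (v / b) ++ [v % b]

/-- A word of digits is read from the left with a stack `s` of open brackets: a digit `d < m` is an opening bracket of type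
`d` (it is put on the stack), the digit `m + a` a closing bracket of type `a` (the top of the stack must be `a`, it is removed);
`Balanced m s w` says that this is possible and leads to the empty stack at the end of the word. -/
def Balanced (m : ℕ) : List ℕ → List ℕ → Prop
  | s, [] => s = []
  | s, d :: w => if d < m then Balanced m (d :: s) w else
      match s with
      | [] => False
      | a :: s' => d = m + a ∧ Balanced m s' w

open Classical in
/-- The integers whose `2 n` digits in base `2 m` are a balanced word of `2 n` brackets of `m` types. -/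
noncomputable def balancedIntegers (m n : ℕ) : Finset ℕ :=
  (range ((2 * m) ^ (2 * n))).filter (fun v => Balanced m [] (word (2 * m) (2 * n) v))

theorem gcd_iff (a : ℤ) (ha : 0 < a) (q : ℕ) : Int.gcd a q = 1 ↔ a.toNat.Coprime q := by
  obtain ⟨b, rfl⟩ := Int.eq_ofNat_of_zero_le ha.le
  rw [Int.gcd_natCast_natCast, Int.toNat_natCast, Nat.coprime_iff_gcd_eq_one]

theorem E_eq (x q : ℕ) (a : ℤ) (ha : 0 < a) : E x q a =
    Pool.Agent.W93.LV.Fu (fun n => ArithmeticFunction.vonMangoldt n) x q a.toNat - (x : ℝ) / Nat.totient q := by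
  obtain ⟨b, rfl⟩ := Int.eq_ofNat_of_zero_le ha.le
  unfold E Pool.Agent.W93.LV.Fu
  rw [Int.toNat_natCast]
  congr 1
  apply sum_congr _ (fun _ _ => rfl)
  ext n
  simp only [mem_filter, Int.natCast_modEq_iff]

theorem sum_eq (lam : ℕ → ℝ) (x : ℕ → ℕ) (Q : ℕ) (a : ℤ) (ha : 0 < a) :
    ∑ q ∈ (Icc 1 Q).filter (fun q : ℕ => Int.gcd a q = 1), lam q * E (x q) q a =
      Pool.Agent.TH212.EH.WW lam x Q a.toNat := by
  unfold Pool.Agent.TH212.EH.WW
  simp only [gcd_iff a ha, E_eq _ _ a ha]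

lemma sum_filter_le {Ω : Type} [Fintype Ω] (p : Ω → ℝ) (hp : ∀ ω, 0 ≤ p ω) (A C : Ω → Prop) (_ : DecidablePred A)
    (_ : DecidablePred C) (h : ∀ ω, A ω → C ω) : ∑ ω ∈ univ.filter (fun ω => A ω), p ω ≤ ∑ ω ∈ univ.filter (fun ω => C ω), p ω := by
  apply sum_le_sum_of_subset_of_nonneg
  · intro ω hω
    rw [mem_filter] at hω ⊢
    exact ⟨hω.1, h ω hω.2⟩
  · intro ω _ _
    exact hp ω

/-- the law implies the level of distribution -/
theorem level_of (b F B B' e T U : ℕ) (hb : 2 ≤ b) (hF : 1 ≤ F) (hB : B ≤ B') (he : 2 * B' + 1 ≤ b ^ e) :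
    ∃ V : ℕ, ∀ D : ℕ, ∃ K k₀ : ℕ, ∀ k : ℕ, k₀ ≤ k → ∀ (Ω : Type) [Fintype Ω] (p : Ω → ℝ) (v : Ω → ℤ),
    ∑ ω, p ω = 1 → (∀ ω, |v ω| ≤ B' * ((b ^ k : ℕ) : ℤ)) → Pool.Agent.W93.AU.Law b F D V (k + e) univ p v →
    Level K (b ^ k) B T U p v := by
  classical
  obtain ⟨V1, H1⟩ := Pool.Agent.V7H79.EH.few_law b F e B' hb hF he T U
  obtain ⟨V2, H2⟩ := Pool.Agent.V7H79.EH.dual_law b F e B' hb hF he T U
  refine ⟨max V1 V2, fun D => ?_⟩
  obtain ⟨K1, n1, h1⟩ := H1 D
  obtain ⟨K2, n2, h2⟩ := H2 D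
  refine ⟨max K1 K2, n1 + n2 + 1, fun k hk Ω _ p v hp1 hv hl => ?_⟩
  have hbk : k < b ^ k := Nat.lt_pow_self (by omega)
  obtain ⟨N, hN⟩ : ∃ N, N = b ^ k := ⟨_, rfl⟩
  rw [← hN] at hv hbk ⊢
  have hE1 := Pool.Agent.V7H79.EH.Law_anti (le_max_left V1 V2) (by omega) hl
  have hE2 := Pool.Agent.V7H79.EH.Law_anti (le_max_right V1 V2) (by omega) hl
  have hp0 : ∀ ω, 0 ≤ p ω := fun ω => hl.nonneg ω (mem_univ _)
  have hBN : B * N ≤ B' * N := Nat.mul_le_mul_right _ hB
  have hlev1 : level (max K1 K2) N ≤ Pool.Agent.TH212.EH.level K1 N :=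
    Pool.Agent.TH212.EH.level_anti K1 _ N (le_max_left _ _)
  have hlev2 : level (max K1 K2) N ≤ Pool.Agent.TH212.EH.level K2 N :=
    Pool.Agent.TH212.EH.level_anti K2 _ N (le_max_right _ _)
  have hlev0 : 0 ≤ level (max K1 K2) N := by unfold level; positivity
  constructor
  · intro lam hlam
    have hlam' : ∀ q, |lam q| ≤ Real.log N ^ T * (q.divisors.card : ℝ) ^ T := by
      intro q
      refine (hlam q).trans (le_of_eq ?_)
      rw [mul_pow, mul_comm]
      rfl
    obtain ⟨k1, k2⟩ := h1 N k (by omega) hN Ω p v hp1 hv hE1 lam hlam'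
    constructor
    · refine le_trans (sum_filter_le p hp0 _ _ _ _ ?_) k1
      rintro ω ⟨hi1, Q, hQ, x, hx, hbig⟩
      refine ⟨hi1, Q, hQ.trans hlev1, x, hx.trans hBN, ?_⟩
      rw [sum_eq lam (fun _ => x) Q (v ω) hi1] at hbig
      exact hbig
    · intro x hx
      refine le_trans (sum_filter_le p hp0 _ _ _ _ ?_) (k2 x (fun q => (hx q).trans hBN))
      rintro ω ⟨hi1, Q, hQ, hbig⟩
      refine ⟨hi1, Q, hQ.trans hlev1, ?_⟩
      rw [sum_eq lam x Q (v ω) hi1] at hbig
      exact hbig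
  · intro c hc x hx
    have k3 := h2 N k (by omega) hN Ω p v hp1 hv hE2 c hc ⌊level (max K1 K2) N⌋₊ ((Nat.floor_le hlev0).trans hlev2) x
      (fun q => (hx q).trans hBN)
    refine le_trans (le_of_eq ?_) k3
    apply sum_congr rfl
    intro q _
    unfold τ
    congr 2
    apply sum_congr
    · ext i
      simp only [mem_filter, mem_univ, true_and]
      constructor
      · rintro ⟨h3, h4⟩
        exact ⟨h3, (gcd_iff _ h3 q).1 h4⟩
      · rintro ⟨h3, h4⟩
        exact ⟨h3, (gcd_iff _ h3 q).2 h4⟩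
    · intro i hi
      rw [mem_filter] at hi
      rw [E_eq _ _ _ hi.2.1]

lemma digit_mod (b K r i : ℕ) (hi : i ≤ K) : r % b ^ (K + 1) / b ^ i % b = r / b ^ i % b := by
  have e1 : b ^ (K + 1) = b ^ i * b ^ (K + 1 - i) := by rw [← pow_add]; congr 1; omega
  rw [e1, Nat.mod_mul_right_div_self, Nat.mod_mod_of_dvd]
  exact dvd_pow_self b (by omega)

lemma rough_eq (b K r : ℕ) : Pool.Agent.W93.DG.ne b 0 K (r % b ^ (K + 1)) = rough b K r := by
  unfold Pool.Agent.W93.DG.ne rough
  rw [zero_add, ← Finset.range_eq_Ico]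
  congr 1
  apply filter_congr
  intro j hj
  rw [mem_range] at hj
  unfold Pool.Agent.W93.DG.Ext
  rw [digit_mod b K r j hj.le, digit_mod b K r (j + 1) hj]

lemma law_of {b F D V K : ℕ} {Ω : Type} [Fintype Ω] {p : Ω → ℝ} {v : Ω → ℤ} (h : Digital b F D V K p v) :
    Pool.Agent.W93.AU.Law b F D V K univ p v := by
  refine ⟨fun ω _ => h.nonneg ω, h.sum.le, fun t ht => ?_⟩
  rw [rough_eq] at ht
  refine le_trans (le_of_eq ?_) (h.small t ht)
  congr 1
  apply sum_congr rfl
  intro ω _
  unfold Pool.Agent.H807R2.Dav.ee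
  congr 3
  push_cast
  ring

lemma begins_sum (b k : ℕ) (μ : ℕ → ℝ) (i u : ℕ) (hi : i < k) :
    ∑ a ∈ range b, begins b k μ (i + 1) (b * u + a) = begins b k μ i u := by
  unfold begins
  obtain ⟨n, hn⟩ : ∃ n, k - i = n + 1 := ⟨k - i - 1, by omega⟩
  have h1 : k - (i + 1) = n := by omega
  rw [h1, hn, pow_succ, mul_comm (b ^ n) b, Pool.Agent.N625.PT.sum_blocks b (b ^ n)]
  apply sum_congr rfl
  intro a _
  apply sum_congr rfl
  intro w _
  congr 1
  ring

lemma flex_of {b L T k : ℕ} {η : ℝ} {p : ℕ → ℝ} (hp : Exchangeable b L η T k p) : Pool.Agent.N625.PT.Flex b L η T k p := by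
  obtain ⟨h0, h1, μ, m0, m1, m2, m3⟩ := hp
  have hT : (0 : ℝ) ≤ (k : ℝ) ^ T := by positivity
  have hb0 : ∀ i u, 0 ≤ begins b k μ i u := fun i u => sum_nonneg fun w _ => m0 _
  refine ⟨h0, h1, fun i u => (k : ℝ) ^ T * begins b k μ i u, fun i u => mul_nonneg hT (hb0 i u), ?_, ?_, ?_, ?_⟩
  · intro v hv
    refine (m2 v hv).trans (le_of_eq ?_)
    unfold begins
    simp
  · intro i hi u _
    simp only
    rw [← mul_sum, begins_sum b k μ i u hi]
  · simp only
    have : begins b k μ 0 0 = 1 := by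
      unfold begins
      simpa using m1
    rw [this, mul_one]
  · intro i u hi hu
    obtain ⟨a, a', r, q1, q2, q3, q4, q5, q6, q7⟩ := m3 i u hi hu
    refine ⟨a, a', r, q1, q2, q3, q4, q5, ?_, ?_⟩
    · simp only
      calc η * ((k : ℝ) ^ T * begins b k μ i u) = (k : ℝ) ^ T * (η * begins b k μ i u) := by ring
        _ ≤ _ := mul_le_mul_of_nonneg_left q6 hT
    · simp only
      calc η * ((k : ℝ) ^ T * begins b k μ i u) = (k : ℝ) ^ T * (η * begins b k μ i u) := by ring
        _ ≤ _ := mul_le_mul_of_nonneg_left q7 hT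

lemma law_fin {b F D V K M : ℕ} {p : ℕ → ℝ} {Y : ℕ → ℤ} (h : Pool.Agent.W93.AU.Law b F D V K (range M) p Y) :
    Pool.Agent.W93.AU.Law b F D V K univ (fun v : Fin M => p v) (fun v : Fin M => Y v) := by
  refine ⟨fun v _ => h.nonneg v (mem_range.2 v.2), ?_, fun t ht => ?_⟩
  · rw [Fin.sum_univ_eq_sum_range]
    exact h.le_one
  · rw [Fin.sum_univ_eq_sum_range (fun v => ((p v : ℝ) : ℂ) *
      Pool.Agent.H807R2.Dav.ee ((Y v : ℝ) * ((t : ℝ) / ((b ^ (K + 1) : ℕ) : ℝ))))]
    exact h.char t ht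

lemma size (κ c : ℤ) (B N v : ℕ) (hc : |c| ≤ B * (N : ℤ)) (hv : v ≤ N) : |c + κ * (v : ℤ)| ≤ ((B + κ.natAbs : ℕ) : ℤ) * (N : ℤ) := by
  have h1 := abs_add_le c (κ * (v : ℤ))
  have h2 : |κ * (v : ℤ)| ≤ (κ.natAbs : ℤ) * N := by
    rw [abs_mul, Int.natCast_natAbs, abs_of_nonneg (Int.natCast_nonneg v)]
    exact mul_le_mul_of_nonneg_left (by exact_mod_cast hv) (abs_nonneg _)
  push_cast at h2 ⊢
  linarith

lemma law_sub {b F D V K M : ℕ} {S : Finset ℕ} {p : ℕ → ℝ} {Y : ℕ → ℤ} (hS : S ⊆ range M)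
    (hp : ∀ v, p v = if v ∈ S then 1 / (S.card : ℝ) else 0) (h : Pool.Agent.W93.AU.Law b F D V K (range M) p Y) :
    Pool.Agent.W93.AU.Law b F D V K univ (fun _ : S => 1 / (S.card : ℝ)) (fun v : S => Y v) := by
  have key : ∀ g : ℕ → ℂ, ∑ v : S, (((1 / (S.card : ℝ) : ℝ)) : ℂ) * g v = ∑ v ∈ range M, ((p v : ℝ) : ℂ) * g v := by
    intro g
    rw [Finset.sum_coe_sort S (fun v => (((1 / (S.card : ℝ) : ℝ)) : ℂ) * g v)]
    rw [← sum_subset hS (f := fun v => ((p v : ℝ) : ℂ) * g v)]
    · apply sum_congr rfl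
      intro v hv
      rw [hp, if_pos hv]
    · intro v _ hv
      rw [hp, if_neg hv]
      simp
  refine ⟨fun v _ => by positivity, ?_, fun t ht => ?_⟩
  · rw [sum_const, card_univ, Fintype.card_coe, nsmul_eq_mul]
    rcases Nat.eq_zero_or_pos S.card with h0 | h0
    · rw [h0]
      simp
    · rw [mul_one_div, div_self (by exact_mod_cast h0.ne')]
  · rw [key (fun v => Pool.Agent.H807R2.Dav.ee ((Y v : ℝ) * ((t : ℝ) / ((b ^ (K + 1) : ℕ) : ℝ))))]
    exact h.char t ht

lemma word_eq (b k : ℕ) : ∀ v, word b k v = Pool.Agent.V7H79.EH.word b k v := by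
  induction k with
  | zero => intro v; rfl
  | succ k ih => intro v; rw [word, Pool.Agent.V7H79.EH.word, ih]

lemma Balanced_iff (m : ℕ) (w : List ℕ) : ∀ s, Balanced m s w ↔ Pool.Agent.V7H79.EH.Balanced m s w := by
  induction w with
  | nil => intro s; rw [Balanced, Pool.Agent.V7H79.EH.Balanced]
  | cons d w ih =>
    intro s
    cases s with
    | nil => rw [Balanced, Pool.Agent.V7H79.EH.Balanced, ih]
    | cons a s => rw [Balanced, Pool.Agent.V7H79.EH.Balanced, ih, ih]

lemma mem_balanced (m n v : ℕ) : v ∈ balancedIntegers m n ↔ v < (2 * m) ^ (2 * n) ∧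
    Pool.Agent.V7H79.EH.Balanced m [] (Pool.Agent.V7H79.EH.word (2 * m) (2 * n) v) := by
  classical
  unfold balancedIntegers
  rw [mem_filter, mem_range, Balanced_iff, word_eq]

open Classical in
lemma balanced_eq (m n : ℕ) : balancedIntegers m n = (range ((2 * m) ^ (2 * n))).filter (fun v =>
    Pool.Agent.V7H79.EH.Balanced m [] (Pool.Agent.V7H79.EH.word (2 * m) (2 * n) v)) := by
  ext v
  rw [mem_balanced, mem_filter, mem_range]

lemma pB_eq (m n v : ℕ) (hv : v < (2 * m) ^ (2 * n)) : Pool.Agent.V7H79.EH.pB m n v =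
    if v ∈ balancedIntegers m n then 1 / ((balancedIntegers m n).card : ℝ) else 0 := by
  have h1 := mem_balanced m n v
  unfold Pool.Agent.V7H79.EH.pB
  by_cases hB : Pool.Agent.V7H79.EH.Balanced m [] (Pool.Agent.V7H79.EH.word (2 * m) (2 * n) v)
  · rw [if_pos hB, if_pos (h1.2 ⟨hv, hB⟩), balanced_eq m n]
  · rw [if_neg hB, if_neg (fun h' => hB (h1.1 h').2)]

lemma card_balanced (m n : ℕ) (hm : 1 ≤ m) : (balancedIntegers m n).card = m ^ n * catalan n := by
  classical
  have h1 : ((balancedIntegers m n).card : ℤ) = Pool.Agent.V7H79.EH.cnt m [] (2 * n) := by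
    unfold Pool.Agent.V7H79.EH.cnt
    rw [balanced_eq, ← sum_filter, sum_const, nsmul_eq_mul, mul_one]
  rw [Pool.Agent.V7H79.EH.cnt_eq m hm (2 * n) [] n (by simp) (by simp), show 2 * n - n = n by omega] at h1
  have h2 := Nat.choose_succ_right_eq (2 * n) n
  rw [show 2 * n - n = n by omega] at h2
  have h3 := succ_mul_catalan_eq_centralBinom n
  rw [Nat.centralBinom_eq_two_mul_choose] at h3
  have h2z : ((2 * n).choose (n + 1) : ℤ) * (n + 1) = (2 * n).choose n * n := by exact_mod_cast h2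
  have h3z : ((n : ℤ) + 1) * catalan n = (2 * n).choose n := by exact_mod_cast h3
  have h4 : ((2 * n).choose n : ℤ) - ((2 * n).choose (n + 1) : ℤ) = catalan n := by
    have h5 : ((n : ℤ) + 1) * (((2 * n).choose n : ℤ) - ((2 * n).choose (n + 1) : ℤ)) = ((n : ℤ) + 1) * catalan n := by
      linarith
    exact mul_left_cancel₀ (by positivity) h5
  rw [h4] at h1
  exact_mod_cast h1

/-- **Level of distribution `N / exp (K (log log N) ^ 2)` along random integers with digital laws.**

(1) Let `b ≥ 2`, `F ≥ 1`, `B`, `T`, `U` and `e` with `b ^ e ≥ 2 B + 1` be given. Then there is a `V` such that for all `D`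
there are `K` and `k₀` with the following property for all `k ≥ k₀`. Let `v` be any random integer of finitely many values,
of size at most `B N`, `N = b ^ k`, whose characteristic function is at most `1 / (k + e) ^ V` at all the fractions
`t / b ^ (k + e + 1)` for which the digits number `j` and `j + 1` of `F t` are neither both `0` nor both `b - 1` for at least
`D (⌊log_b (k + e)⌋ + 1)` of the `j < k + e`. Then the primes up to `B N` have the level of distribution
`N / exp (K (log log N) ^ 2)` along `v`.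

(2) Let `b ≥ 2`, `L ≥ 1`, `0 < η ≤ 1`, `T₀`, `κ ≠ 0`, `B`, `T`, `U` be given. Then there is a `K` such that for all large `k`,
for every probability `p` on the words of `k` digits in base `b` in which blocks of `L` digits can be exchanged
(`Exchangeable b L η T₀ k p`) and for all integers `|c| ≤ B N`, `N = b ^ k`, the primes up to `B N` have the level of
distribution `N / exp (K (log log N) ^ 2)` along `c + κ v`, where `v` is the integer with the random digits.

(3) Let `b ≥ 2`, `η > 0`, `κ ≠ 0`, `B`, `T`, `U` be given. Then there is a `K` such that for all large `k`, for all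
sequences of `k` digits `d` in base `b`, none of which is taken at more than `(1 - η) k` places, and for all integers
`|c| ≤ B N`, `N = b ^ k`, the primes up to `B N` have the level of distribution `N / exp (K (log log N) ^ 2)` along
`c + κ v`, where `v` is the integer with the digits `d` in a random order (all `k!` orders have the same probability).

(4) Let `m ≥ 1`, `κ ≠ 0`, `B`, `T`, `U` be given. Then there is a `K` such that for all large `n` and all integers
`|c| ≤ B N`, `N = (2 m) ^ (2 n)`, the primes up to `B N` have the level of distribution `N / exp (K (log log N) ^ 2)` along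
`c + κ v`, where `v` is a random integer whose `2 n` digits in base `2 m` are a balanced word of brackets of `m` types (all these
integers have the same probability). The number of these integers is `m ^ n` times a Catalan number, so about `N ^ δ` with
`δ = log (2 √m) / log (2 m) < 1` for `m ≥ 2`. -/
theorem result :
    (∀ b F B T U e : ℕ, 2 ≤ b → 1 ≤ F → 2 * B + 1 ≤ b ^ e → ∃ V : ℕ, ∀ D : ℕ, ∃ K k₀ : ℕ, ∀ k : ℕ, k₀ ≤ k →
      ∀ (Ω : Type) [Fintype Ω] (p : Ω → ℝ) (v : Ω → ℤ), Digital b F D V (k + e) p v → (∀ ω, |v ω| ≤ B * (b : ℤ) ^ k) →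
      Level K (b ^ k) B T U p v) ∧
    (∀ b L : ℕ, 2 ≤ b → 1 ≤ L → ∀ η : ℝ, 0 < η → η ≤ 1 → ∀ (T₀ : ℕ) (κ : ℤ), κ ≠ 0 → ∀ B T U : ℕ, ∃ K k₀ : ℕ,
      ∀ k : ℕ, k₀ ≤ k → ∀ p : ℕ → ℝ, Exchangeable b L η T₀ k p → ∀ c : ℤ, |c| ≤ B * (b : ℤ) ^ k →
      Level K (b ^ k) B T U (fun v : Fin (b ^ k) => p v) (fun v => c + κ * (v : ℕ))) ∧
    (∀ b : ℕ, 2 ≤ b → ∀ η : ℝ, 0 < η → ∀ κ : ℤ, κ ≠ 0 → ∀ B T U : ℕ, ∃ K k₀ : ℕ, ∀ k : ℕ, k₀ ≤ k → ∀ d : Fin k → ℕ,
      (∀ i, d i < b) → (∀ a, ((univ.filter (fun i => d i = a)).card : ℝ) ≤ (1 - η) * k) →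
      ∀ c : ℤ, |c| ≤ B * (b : ℤ) ^ k →
      Level K (b ^ k) B T U (fun _ : Equiv.Perm (Fin k) => 1 / (k.factorial : ℝ))
        (fun σ => c + κ * ∑ i : Fin k, (d (σ i) : ℤ) * (b : ℤ) ^ (i : ℕ))) ∧
    (∀ m : ℕ, 1 ≤ m → ∀ κ : ℤ, κ ≠ 0 → ∀ B T U : ℕ, ∃ K n₀ : ℕ, ∀ n : ℕ, n₀ ≤ n →
      (balancedIntegers m n).card = m ^ n * catalan n ∧
      ∀ c : ℤ, |c| ≤ B * ((2 * m : ℕ) : ℤ) ^ (2 * n) →
      Level K ((2 * m) ^ (2 * n)) B T U (fun _ : balancedIntegers m n => 1 / ((balancedIntegers m n).card : ℝ))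
        (fun v => c + κ * (v : ℕ))) := by
  refine ⟨?_, ?_, ?_, ?_⟩
  · intro b F B T U e hb hF he
    obtain ⟨V, hV⟩ := level_of b F B B e T U hb hF le_rfl he
    refine ⟨V, fun D => ?_⟩
    obtain ⟨K, k₀, h⟩ := hV D
    refine ⟨K, k₀, fun k hk Ω _ p v hd hv => h k hk Ω p v hd.sum (fun ω => ?_) (law_of hd)⟩
    rw [Nat.cast_pow]
    exact hv ω
  · intro b L hb hL η hη0 hη1 T₀ κ hκ B T U
    obtain ⟨e, he⟩ : ∃ e, e = 2 * (B + κ.natAbs) + 1 := ⟨_, rfl⟩
    have hbe : 2 * (B + κ.natAbs) + 1 ≤ b ^ e := by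
      rw [← he]
      exact (Nat.lt_pow_self (by omega)).le
    obtain ⟨V, hV⟩ := level_of b (Pool.Agent.N625.PT.FF b L κ) B (B + κ.natAbs) e T U hb
      (Pool.Agent.N625.PT.FF_pos b L κ hκ) (by omega) hbe
    obtain ⟨D, K₀, hlaw⟩ := Pool.Agent.N625.PT.law b L hb hL η hη0 hη1 T₀ κ e V
    obtain ⟨K, k₀, h⟩ := hV D
    refine ⟨K, k₀ + K₀, fun k hk p hp c hc => ?_⟩
    have hl := hlaw (k + e) (by omega) k e rfl (Nat.le_mul_of_pos_right _ (by omega)) p (flex_of hp) c
    refine h k (by omega) (Fin (b ^ k)) _ _ ?_ (fun v => ?_) (law_fin hl)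
    · rw [Fin.sum_univ_eq_sum_range]
      exact hp.sum
    · exact size κ c B (b ^ k) v (by rw [Nat.cast_pow]; exact hc) v.2.le
  · intro b hb η hη κ hκ B T U
    obtain ⟨e, he⟩ : ∃ e, e = 2 * (B + κ.natAbs) + 1 := ⟨_, rfl⟩
    have hbe : 2 * (B + κ.natAbs) + 1 ≤ b ^ e := by
      rw [← he]
      exact (Nat.lt_pow_self (by omega)).le
    obtain ⟨V, hV⟩ := level_of b (Pool.Agent.TH872.An.FA b κ) B (B + κ.natAbs) e T U hb
      (Pool.Agent.TH872.An.FA_pos b hb κ hκ) (by omega) hbe
    obtain ⟨D, K₀, hlaw⟩ := Pool.Agent.TH872.An.an_law b hb η hη κ e V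
    obtain ⟨K, k₀, h⟩ := hV D
    refine ⟨K, k₀ + K₀ + 1, fun k hk d hd1 hd2 c hc => ?_⟩
    have hd : Pool.Agent.TH872.An.Spread b k η d := ⟨hd1, hd2⟩
    have hl := hlaw k (k + e) rfl (by omega) d hd c
    have hk0 : (0 : ℝ) < (k.factorial : ℝ) := by exact_mod_cast k.factorial_pos
    have e1 : ∀ σ : Equiv.Perm (Fin k), ∑ i : Fin k, (d (σ i) : ℤ) * (b : ℤ) ^ (i : ℕ) =
        ((Pool.Agent.TH872.An.V b d σ : ℕ) : ℤ) := by
      intro σ
      unfold Pool.Agent.TH872.An.V
      push_cast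
      rfl
    simp only [e1]
    refine h k (by omega) (Equiv.Perm (Fin k)) _ _ ?_ (fun σ => ?_) hl
    · rw [sum_const, card_univ, Fintype.card_perm, Fintype.card_fin, nsmul_eq_mul, mul_one_div, div_self hk0.ne']
    · exact size κ c B (b ^ k) _ (by rw [Nat.cast_pow]; exact hc) (Pool.Agent.TH872.An.V_lt hd (by omega) σ).le
  · intro m hm κ hκ B T U
    have hb : 2 ≤ 2 * m := by omega
    have hmr : (1 : ℝ) ≤ m := by exact_mod_cast hm
    obtain ⟨e, he⟩ : ∃ e, e = 2 * (B + κ.natAbs) + 1 := ⟨_, rfl⟩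
    have hbe : 2 * (B + κ.natAbs) + 1 ≤ (2 * m) ^ e := by
      rw [← he]
      exact (Nat.lt_pow_self (by omega)).le
    have hη : (1 / (4 * (m : ℝ))) ^ 2 ≤ 1 := by
      apply pow_le_one₀ (by positivity)
      rw [div_le_one (by positivity)]
      linarith
    obtain ⟨V, hV⟩ := level_of (2 * m) (Pool.Agent.N625.PT.FF (2 * m) 4 κ) B (B + κ.natAbs) e T U hb
      (Pool.Agent.N625.PT.FF_pos (2 * m) 4 κ hκ) (by omega) hbe
    obtain ⟨D, K₀, hlaw⟩ := Pool.Agent.N625.PT.law (2 * m) 4 hb (by norm_num) ((1 / (4 * (m : ℝ))) ^ 2) (by positivity) hη 2 κ e V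
    obtain ⟨K, k₀, h⟩ := hV D
    refine ⟨K, k₀ + K₀ + 1, fun n hn => ⟨card_balanced m n hm, fun c hc => ?_⟩⟩
    have hl := hlaw (2 * n + e) (by omega) (2 * n) e rfl (Nat.le_mul_of_pos_right _ (by omega)) _
      (Pool.Agent.V7H79.EH.flex_brackets m n hm (by omega)) c
    have hS : balancedIntegers m n ⊆ range ((2 * m) ^ (2 * n)) := by
      intro v hv
      rw [mem_balanced] at hv
      exact mem_range.2 hv.1
    have hp := pB_eq m n
    have hl' : Pool.Agent.W93.AU.Law (2 * m) (Pool.Agent.N625.PT.FF (2 * m) 4 κ) D V (2 * n + e) (range ((2 * m) ^ (2 * n)))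
        (fun v => if v ∈ balancedIntegers m n then 1 / ((balancedIntegers m n).card : ℝ) else 0)
        (fun v => c + κ * (v : ℕ)) := by
      refine ⟨fun v hv => ?_, ?_, fun t ht => ?_⟩
      · rw [← hp v (mem_range.1 hv)]
        exact hl.nonneg v hv
      · rw [← sum_congr rfl (fun v hv => hp v (mem_range.1 hv))]
        exact hl.le_one
      · have h1 := hl.char t ht
        rw [sum_congr rfl (fun v hv => by rw [hp v (mem_range.1 hv)])] at h1
        exact h1
    have hcard : (0 : ℝ) < (balancedIntegers m n).card := by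
      rw [card_balanced m n hm]
      have h0 : 0 < catalan n := by
        have h1 := succ_mul_catalan_eq_centralBinom n
        have h2 := Nat.centralBinom_pos n
        rcases Nat.eq_zero_or_pos (catalan n) with h0 | h0
        · rw [h0] at h1; omega
        · exact h0
      have : 0 < m ^ n * catalan n := Nat.mul_pos (Nat.pow_pos hm) h0
      exact_mod_cast this
    refine h (2 * n) (by omega) (balancedIntegers m n) _ _ ?_ (fun v => ?_) (law_sub hS (fun v => rfl) hl')
    · rw [sum_const, card_univ, Fintype.card_coe, nsmul_eq_mul, mul_one_div, div_self hcard.ne']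
    · refine size κ c B ((2 * m) ^ (2 * n)) _ ?_ (mem_range.1 (hS v.2)).le
      rw [Nat.cast_pow]
      exact hc

end Pool.Agent.Results.MP_a78e8f_nt.DigitalLawsH79
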