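import Pool.Agent.V7H38.EH.Chain
import Pool.Agent.V7H38.EH.Rand2

/-!
# Level of distribution `N / exp (K (log log N) ^ 2)` for almost all members of families of residues with few large
Fourier coefficients, in particular of ALL translates of almost every set of `(log N) ^ C` residues or values of a polynomial

The primes have the level of distribution `N / exp (K (log log N) ^ 2)`, so more than `N ^ θ` for every `θ < 1`, in almost
all residue classes of EVERY finite family of residues for which at most `log ^ C N` of the Fourier coefficients are larger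
than `1 / log ^ R N`, where `C` is arbitrary.  In other words: no part of the set of the exceptional residues, however
sparse, has few large Fourier coefficients.  The number of the residues can be as small as a power of `log N`: all sets
of `log ^ C N` residues but a proportion `N ^ (-D)` have this property together with ALL their translates.

Proof.  Let `Λ_z` be the model of the von Mangoldt function with the small primes up to a power of `log N`.  The second
moment over the family of the correlations of `Λ - Λ_z` with an arbitrary bounded function is a quadratic form in the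
Fourier transform of the family: the few large coefficients are compensated by the Fourier transform of `Λ - Λ_z`, which
saves an arbitrary power of the logarithm, and the others by the theorem of Parseval.  The sieve for `Λ_z` and the passage
to all lengths and numbers of moduli are from the starting files (`Pool.Agent.W93.LV`, `Pool.Agent.TH212.EH`).  For random
families one uses exponential moments.
-/

set_option autoImplicit false

namespace Pool.Agent.Results.MP_a78e8f_nt.FewFourierCoefficientsH38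

open Finset Polynomial

/-- The Fourier coefficient modulo `M` at `t` of the finite family `v` of integers: the sum of `exp (2 π i t v_i / M)`. -/
noncomputable def coeff {ι : Type} [Fintype ι] (v : ι → ℤ) (M t : ℕ) : ℂ :=
  ∑ i, Complex.exp (2 * Real.pi * Complex.I * (t * v i / M))

open Classical in
/-- At most `K` of the Fourier coefficients modulo `M` of the family `v` are larger than `ρ` times the number of its
members. -/
def FewLarge {ι : Type} [Fintype ι] (v : ι → ℤ) (M : ℕ) (ρ K : ℝ) : Prop :=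
  (((range M).filter (fun t => ρ * Fintype.card ι < ‖coeff v M t‖)).card : ℝ) ≤ K

/-- `ψ(x; q, a) - x / φ(q)`, where `ψ(x; q, a)` is the sum of `Λ(n)` over the `1 ≤ n ≤ x` with `n ≡ a (mod q)`. -/
noncomputable def E (x q : ℕ) (a : ℤ) : ℝ :=
  ∑ n ∈ (Icc 1 x).filter (fun n : ℕ => (n : ℤ) ≡ a [ZMOD q]), ArithmeticFunction.vonMangoldt n -
    (x : ℝ) / Nat.totient q

/-- `N / exp (K (log log N) ^ 2)` -/
noncomputable def level (K N : ℕ) : ℝ := N / Real.exp (K * Real.log (Real.log N) ^ 2)

/-- `τ(q)`, the number of the divisors of `q` -/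
noncomputable def τ (q : ℕ) : ℝ := q.divisors.card

open Classical in
/-- The primes up to `B N` have the level of distribution `N / exp (K (log log N) ^ 2)` along the family `v` of
residues:

* for every function `λ` on the moduli with `|λ(q)| ≤ (τ(q) log N) ^ T`, for all but at most `#ι / log ^ U N` members
  `a > 0` of the family, the sum of `λ(q) E(x; q, a)` over the `q ≤ Q` coprime to `a` is at most `N / log ^ U N` in
  absolute value for ALL `Q ≤ N / exp (K (log log N) ^ 2)` and ALL `x ≤ B N`; and the same for all `Q`, if the length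
  `x = x(q) ≤ B N` is an arbitrary function of the modulus;
* for all coefficients `|c i| ≤ log ^ T N` of the members of the family and all functions `x(q) ≤ B N`, the sum over the
  `q ≤ N / exp (K (log log N) ^ 2)` of `τ(q) ^ T` times the ABSOLUTE VALUE of the sum of `c i E(x(q); q, v i)` over the
  members `v i > 0` coprime to `q` is at most `#ι N / log ^ U N`.

(This is the notion of the starting file `ThinFamilies`.) -/
def Level (K N B T U : ℕ) {ι : Type} [Fintype ι] (v : ι → ℤ) : Prop :=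
  (∀ lam : ℕ → ℝ, (∀ q, |lam q| ≤ (τ q * Real.log N) ^ T) →
    ((univ.filter (fun i : ι => 0 < v i ∧ ∃ Q : ℕ, (Q : ℝ) ≤ level K N ∧ ∃ x : ℕ, x ≤ B * N ∧
      N / Real.log N ^ U < |∑ q ∈ (Icc 1 Q).filter (fun q : ℕ => Int.gcd (v i) q = 1), lam q * E x q (v i)|)).card : ℝ) ≤
        Fintype.card ι / Real.log N ^ U ∧
    ∀ x : ℕ → ℕ, (∀ q, x q ≤ B * N) →
    ((univ.filter (fun i : ι => 0 < v i ∧ ∃ Q : ℕ, (Q : ℝ) ≤ level K N ∧
      N / Real.log N ^ U < |∑ q ∈ (Icc 1 Q).filter (fun q : ℕ => Int.gcd (v i) q = 1), lam q * E (x q) q (v i)|)).card : ℝ) ≤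
        Fintype.card ι / Real.log N ^ U) ∧
  (∀ c : ι → ℝ, (∀ i, |c i| ≤ Real.log N ^ T) → ∀ x : ℕ → ℕ, (∀ q, x q ≤ B * N) →
    ∑ q ∈ Icc 1 ⌊level K N⌋₊, τ q ^ T *
      |∑ i ∈ univ.filter (fun i : ι => 0 < v i ∧ Int.gcd (v i) q = 1), c i * E (x q) q (v i)| ≤
        Fintype.card ι * N / Real.log N ^ U)

theorem gcd_iff (a : ℤ) (ha : 0 < a) (q : ℕ) : Int.gcd a q = 1 ↔ a.toNat.Coprime q := by
  obtain ⟨b, rfl⟩ := Int.eq_ofNat_of_zero_le ha.le
  rw [Int.gcd_natCast_natCast, Int.toNat_natCast, Nat.coprime_iff_gcd_eq_one]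

theorem E_eq (x q : ℕ) (a : ℤ) (ha : 0 < a) : E x q a =
    Pool.Agent.W93.LV.Fu (fun n => ArithmeticFunction.vonMangoldt n) x q a.toNat - (x : ℝ) / Nat.totient q := by
  obtain ⟨b, rfl⟩ := Int.eq_ofNat_of_zero_le ha.le
  unfold E Pool.Agent.W93.LV.Fu
  rw [Int.toNat_natCast]
  congr 1
  apply sum_congr _ (fun _ _ => rfl)
  ext n
  simp only [mem_filter, Int.natCast_modEq_iff]

theorem sum_eq (lam : ℕ → ℝ) (x : ℕ → ℕ) (Q : ℕ) (a : ℤ) (ha : 0 < a) :
    ∑ q ∈ (Icc 1 Q).filter (fun q : ℕ => Int.gcd a q = 1), lam q * E (x q) q a =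
      Pool.Agent.TH212.EH.WW lam x Q a.toNat := by
  unfold Pool.Agent.TH212.EH.WW
  simp only [gcd_iff a ha, E_eq _ _ a ha]

theorem level_of (B B' T U : ℕ) (hB : B ≤ B') : ∃ R : ℕ, ∀ C : ℕ, ∃ K N₀ : ℕ, ∀ N : ℕ, N₀ ≤ N →
    ∀ (ι : Type) [Fintype ι] (v : ι → ℤ),
    (∀ i, |v i| ≤ B' * N) → Pool.Agent.V7H38.EH.Few R C B' N v → Level K N B T U v := by
  classical
  obtain ⟨R1, H1⟩ := Pool.Agent.V7H38.EH.few B' T U
  obtain ⟨R2, H2⟩ := Pool.Agent.V7H38.EH.dual B' T U
  refine ⟨max R1 R2, fun C => ?_⟩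
  obtain ⟨K1, n1, h1⟩ := H1 C
  obtain ⟨K2, n2, h2⟩ := H2 C
  obtain ⟨n3, h3⟩ := Pool.Agent.TH212.EH.large 3 (n1 + n2)
  refine ⟨max K1 K2, n3, fun N hN ι _ v hv hE => ?_⟩
  obtain ⟨hNN, -, hL1⟩ := h3 N hN
  have hE1 := Pool.Agent.V7H38.EH.Few_anti _ _ _ _ _ v (le_max_left R1 R2) hL1 hE
  have hE2 := Pool.Agent.V7H38.EH.Few_anti _ _ _ _ _ v (le_max_right R1 R2) hL1 hE
  have hBN : B * N ≤ B' * N := Nat.mul_le_mul_right _ hB
  have hlev1 : level (max K1 K2) N ≤ Pool.Agent.TH212.EH.level K1 N :=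
    Pool.Agent.TH212.EH.level_anti K1 _ N (le_max_left _ _)
  have hlev2 : level (max K1 K2) N ≤ Pool.Agent.TH212.EH.level K2 N :=
    Pool.Agent.TH212.EH.level_anti K2 _ N (le_max_right _ _)
  have hlev0 : 0 ≤ level (max K1 K2) N := by unfold level; positivity
  constructor
  · intro lam hlam
    have hlam' : ∀ q, |lam q| ≤ Real.log N ^ T * (q.divisors.card : ℝ) ^ T := by
      intro q
      refine (hlam q).trans (le_of_eq ?_)
      rw [mul_pow, mul_comm]
      rfl
    obtain ⟨k1, k2⟩ := h1 N (by omega) ι v hv hE1 lam hlam'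
    constructor
    · refine le_trans ?_ k1
      apply Nat.cast_le.2
      apply card_le_card
      intro i hi
      rw [mem_filter] at hi ⊢
      obtain ⟨_, hi1, Q, hQ, x, hx, hbig⟩ := hi
      refine ⟨mem_univ _, hi1, Q, hQ.trans hlev1, x, hx.trans hBN, ?_⟩
      rw [sum_eq lam (fun _ => x) Q (v i) hi1] at hbig
      exact hbig
    · intro x hx
      refine le_trans ?_ (k2 x (fun q => (hx q).trans hBN))
      apply Nat.cast_le.2
      apply card_le_card
      intro i hi
      rw [mem_filter] at hi ⊢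
      obtain ⟨_, hi1, Q, hQ, hbig⟩ := hi
      refine ⟨mem_univ _, hi1, Q, hQ.trans hlev1, ?_⟩
      rw [sum_eq lam x Q (v i) hi1] at hbig
      exact hbig
  · intro c hc x hx
    have k3 := h2 N (by omega) ι v hv hE2 c hc ⌊level (max K1 K2) N⌋₊ ((Nat.floor_le hlev0).trans hlev2) x
      (fun q => (hx q).trans hBN)
    rw [mul_comm (Fintype.card ι : ℝ)]
    refine le_trans (le_of_eq ?_) k3
    apply sum_congr rfl
    intro q _
    unfold τ
    congr 2
    apply sum_congr
    · ext i
      simp only [mem_filter, mem_univ, true_and]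
      constructor
      · rintro ⟨h3, h4⟩
        exact ⟨h3, (gcd_iff _ h3 q).1 h4⟩
      · rintro ⟨h3, h4⟩
        exact ⟨h3, (gcd_iff _ h3 q).2 h4⟩
    · intro i hi
      rw [mem_filter] at hi
      rw [E_eq _ _ _ hi.2.1]

theorem few_of {ι : Type} [Fintype ι] (v : ι → ℤ) (R C B N : ℕ)
    (h : FewLarge v (8 * (B + 1) * N) (1 / Real.log N ^ R) (Real.log N ^ C)) : Pool.Agent.V7H38.EH.Few R C B N v := by
  classical
  unfold FewLarge at h
  unfold Pool.Agent.V7H38.EH.Few
  refine le_trans (le_of_eq ?_) h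
  congr 2
  ext t
  rw [mem_filter, mem_filter]
  have e1 : ‖Pool.Agent.V7H38.EH.FC (Pool.Agent.V7H38.EH.md B N) v t‖ = ‖coeff v (8 * (B + 1) * N) t‖ := by
    unfold Pool.Agent.V7H38.EH.FC coeff Pool.Agent.H807R2.Dav.ee Pool.Agent.V7H38.EH.md
    congr 1
    apply sum_congr rfl
    intro i _
    congr 1
    push_cast
    ring
  rw [e1, one_div_mul_eq_div]
  rfl

open Classical in
/-- random subfamilies, all translates -/
theorem random_of (B B' B'' T U : ℕ) (hB : B + B'' ≤ B') : ∃ R : ℕ, ∀ C' D : ℕ, ∃ C K N₀ : ℕ, ∀ N : ℕ, N₀ ≤ N →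
    ∀ (κ : Type) [Fintype κ] (u : κ → ℤ), (∀ j, |u j| ≤ B'' * N) → Pool.Agent.V7H38.EH.Few R C' B' N u →
    ∀ m : ℕ, Real.log N ^ C ≤ m →
      (univ.filter (fun w : Fin m → κ =>
        ¬ ∀ a : ℤ, |a| ≤ B * N → Level K N B T U (fun i => a + u (w i)))).card * N ^ D ≤ Fintype.card κ ^ m := by
  obtain ⟨R, hR⟩ := level_of B B' T U (by omega)
  refine ⟨R + 1, fun C' D => ?_⟩
  obtain ⟨K, n1, h1⟩ := hR C'
  obtain ⟨C, n2, h2⟩ := Pool.Agent.V7H38.EH.random_sub B' R C' D
  refine ⟨C, K, n1 + n2 + 1, fun N hN κ _ u hu hF m hm => ?_⟩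
  have key := h2 N (by omega) κ u hF m hm
  have hsub : univ.filter (fun w : Fin m → κ =>
      ¬ ∀ a : ℤ, |a| ≤ B * N → Level K N B T U (fun i => a + u (w i))) ⊆
      univ.filter (fun w : Fin m → κ => ¬ Pool.Agent.V7H38.EH.Few R C' B' N (fun i => u (w i))) := by
    intro w hw
    rw [mem_filter] at hw ⊢
    refine ⟨mem_univ _, fun hF => hw.2 fun a ha => ?_⟩
    have hF2 := Pool.Agent.V7H38.EH.Few_add R C' B' N (fun i => u (w i)) a hF
    have e1 : (fun i : Fin m => u (w i) + a) = fun i => a + u (w i) := by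
      funext i
      ring
    rw [e1] at hF2
    refine h1 N (by omega) (Fin m) _ (fun i => ?_) hF2
    have h3 := abs_add_le a (u (w i))
    have h4 := hu (w i)
    have h5 : ((B : ℤ) + B'') * N ≤ B' * N := by
      apply mul_le_mul_of_nonneg_right _ (by positivity)
      exact_mod_cast hB
    linarith
  have h3 : ((univ.filter (fun w : Fin m → κ =>
      ¬ ∀ a : ℤ, |a| ≤ B * N → Level K N B T U (fun i => a + u (w i)))).card : ℝ) * (N : ℝ) ^ D ≤ (Fintype.card κ : ℝ) ^ m := by
    refine le_trans (mul_le_mul_of_nonneg_right ?_ (by positivity)) key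
    exact_mod_cast card_le_card hsub
  exact_mod_cast h3

open Classical in
/-- **Level of distribution `N / exp (K (log log N) ^ 2)` along families with few large Fourier coefficients.**

(1) For all `B`, `T`, `U` there is an `R` such that for every `C` there are `K`, `N₀` with the following property. Let
`N ≥ N₀` and let `v` be any finite family of integers of size at most `B N` (of any length), for which at most `log ^ C N`
Fourier coefficients modulo `8 (B + 1) N` are larger than `#ι / log ^ R N`. Then the primes up to `B N` have the level of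
distribution `N / exp (K (log log N) ^ 2)` along `v`.

(2) Random subfamilies. For all `B`, `T`, `U` there is an `R` such that for all `C'`, `D` there are `C`, `K`, `N₀` with the
following property. Let `N ≥ N₀` and let `u` be any finite family of integers of size at most `B N`, for which at most
`log ^ C' N` Fourier coefficients modulo `8 (2 B + 1) N` are larger than `#κ / log ^ R N`. Then for all `m ≥ log ^ C N`, and
for all sequences `w` of `m` indices but a proportion `N ^ (-D)`, the primes up to `B N` have the level of distribution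
`N / exp (K (log log N) ^ 2)` along ALL the translates `a + u (w 1), …, a + u (w m)`, `|a| ≤ B N`, of the subfamily.

(3) Values of polynomials. (2) applies to the values `f 1, …, f x` of every `f ∈ ℤ[X]` of degree `d ≥ 1`, `N = x ^ d`; for
`f = X` these are all the integers up to `x`: for all `B`, `T`, `U`, `D` there are `C`, `K`, `x₀` such that for all `x ≥ x₀`
and `m ≥ log ^ C x`, and for all sequences `n 1, …, n m` of positive integers up to `x` but a proportion `x ^ (-D)`, the
primes up to `B x ^ d` have the level of distribution `x ^ d / exp (K (log log x ^ d) ^ 2)` along ALL the translates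
`a + f (n 1), …, a + f (n m)`, `|a| ≤ B x ^ d`. -/
theorem result :
    (∀ B T U : ℕ, ∃ R : ℕ, ∀ C : ℕ, ∃ K N₀ : ℕ, ∀ N : ℕ, N₀ ≤ N → ∀ (ι : Type) [Fintype ι] (v : ι → ℤ),
      (∀ i, |v i| ≤ B * N) → FewLarge v (8 * (B + 1) * N) (1 / Real.log N ^ R) (Real.log N ^ C) → Level K N B T U v) ∧
    (∀ B T U : ℕ, ∃ R : ℕ, ∀ C' D : ℕ, ∃ C K N₀ : ℕ, ∀ N : ℕ, N₀ ≤ N → ∀ (κ : Type) [Fintype κ] (u : κ → ℤ),
      (∀ j, |u j| ≤ B * N) → FewLarge u (8 * (2 * B + 1) * N) (1 / Real.log N ^ R) (Real.log N ^ C') →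
      ∀ m : ℕ, Real.log N ^ C ≤ m →
      (univ.filter (fun w : Fin m → κ =>
        ¬ ∀ a : ℤ, |a| ≤ B * N → Level K N B T U (fun i => a + u (w i)))).card * N ^ D ≤ Fintype.card κ ^ m) ∧
    (∀ f : ℤ[X], 1 ≤ f.natDegree → ∀ B T U D : ℕ, ∃ C K x₀ : ℕ, ∀ x : ℕ, x₀ ≤ x → ∀ m : ℕ, Real.log x ^ C ≤ m →
      (univ.filter (fun n : Fin m → Fin x =>
        ¬ ∀ a : ℤ, |a| ≤ B * ((x ^ f.natDegree : ℕ) : ℤ) →
          Level K (x ^ f.natDegree) B T U (fun i => a + f.eval (((n i : ℕ) : ℤ) + 1)))).card * x ^ D ≤ x ^ m) := by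
  refine ⟨?_, ?_, ?_⟩
  · intro B T U
    obtain ⟨R, hR⟩ := level_of B B T U le_rfl
    refine ⟨R, fun C => ?_⟩
    obtain ⟨K, N₀, h⟩ := hR C
    exact ⟨K, N₀, fun N hN ι _ v hv hF => h N hN ι v hv (few_of v R C B N hF)⟩
  · intro B T U
    obtain ⟨R, hR⟩ := random_of B (2 * B) B T U (by omega)
    refine ⟨R, fun C' D => ?_⟩
    obtain ⟨C, K, N₀, h⟩ := hR C' D
    exact ⟨C, K, N₀, fun N hN κ _ u hu hF m hm => h N hN κ u hu (few_of u R C' (2 * B) N hF) m hm⟩
  · intro f hd B T U D
    obtain ⟨R, hR⟩ := random_of B (B + Pool.Agent.H373R2.T7.cf f) (Pool.Agent.H373R2.T7.cf f) T U le_rfl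
    obtain ⟨C', X0, hX⟩ := Pool.Agent.V7H38.EH.poly_few f hd (B + Pool.Agent.H373R2.T7.cf f) R
    obtain ⟨C, K, N₀, h⟩ := hR C' D
    obtain ⟨n3, h3⟩ := Pool.Agent.TH212.EH.large ((f.natDegree : ℝ) ^ C) (N₀ + X0 + 3)
    refine ⟨C + 1, K, n3, fun x hx m hm => ?_⟩
    obtain ⟨hx3, hLd, hL1⟩ := h3 x hx
    have hxd : x ≤ x ^ f.natDegree := Nat.le_self_pow (by omega) x
    have hlog : Real.log ((x ^ f.natDegree : ℕ) : ℝ) ^ C ≤ m := by
      refine le_trans ?_ hm
      push_cast
      rw [Real.log_pow, mul_pow, pow_succ, mul_comm]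
      exact mul_le_mul_of_nonneg_left hLd (by positivity)
    have key := h (x ^ f.natDegree) (by omega) (Fin x) (fun i : Fin x => f.eval (((i : ℕ) + 1 : ℕ) : ℤ)) (fun j => by
      have q1 := Pool.Agent.H373R2.T7.abs_eval_le f ((j : ℕ) + 1) (by omega)
      have q2 : (((j : ℕ) + 1 : ℕ) : ℤ) ^ f.natDegree ≤ (x : ℤ) ^ f.natDegree := by
        apply pow_le_pow_left₀ (by positivity)
        exact_mod_cast (j.2 : (j : ℕ) + 1 ≤ x)
      have q3 : (0 : ℤ) ≤ Pool.Agent.H373R2.T7.cf f := by positivity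
      push_cast at q1 q2 ⊢
      nlinarith) (hX x (by omega)) m hlog
    rw [Fintype.card_fin] at key
    push_cast at key ⊢
    refine le_trans (Nat.mul_le_mul_left _ ?_) key
    exact Nat.pow_le_pow_left hxd D

end Pool.Agent.Results.MP_a78e8f_nt.FewFourierCoefficientsH38
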