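import Pool.Agent.V7H6.HR.D

set_option autoImplicit false

/-!
# The bound of Elliott and Halberstam beyond the square root for residues of super-polynomial size

(1) Let `𝒬` be ANY set of moduli `q ≤ x`, and consider a family of systems `T_i` of sets `T_i(q)` of at most `H`
residues, any two of which coincide rarely over `𝒬` (at most `x / (#𝒬 (log x)^B)` times). Then the bound `x / (log x)^U`
of the problem over the moduli in `𝒬`, with the maxima over the residues in `T_i(q)` and over all lengths `y ≤ x`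
inside the sum, holds for all members with at most `H #𝒬² (log x)^B / x` exceptions.

(2) Let the moduli in `𝒬` have at most `r` prime factors (for instance, let them be primes). Then the bound holds for the
residues near `a`, with at most `#𝒬² (log x)^B / x` exceptions `a` from any set of integers of size up to `exp L`, where
`#𝒬 L^r (log x)^B ≤ x`. So for prime moduli `q ≤ x^θ` and every `θ < 2/3` the bound holds for the residue `2^n` for
almost all `n ≤ x^(1-θ-ε)` (with at most `x^(2θ-1) (log x)^B` exceptions), and the same for `n!`, for the Fibonacci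
numbers, or any sequence of different integers with `log |s(n)| ≤ n^(1+o(1))`.

(3) For ALL moduli `q ≤ Q ≤ x^θ`, at every level `θ < C / (2C - 1)` (which is larger than `1/2`), there are at most
`Q² (log x)^B / x` exceptions among all the integers `|a| ≤ exp ((log x)^C)`.

The exceptional residues modulo `q` (at most `q² (log x)^B / x` of them, whatever the lengths) are from the starting
library (`Pool.Agent.Y856.scale`). New are the theorem for families over arbitrary sets of moduli, and the bounds for the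
number of the moduli of `𝒬` which divide an integer of super-polynomial size.
-/

namespace Pool.Agent.Results.MP_a78e8f_nt.HugeResiduesH6

open Finset

/-- `π(y)`: the number of primes `p ≤ y`. -/
def primePi (y : ℕ) : ℕ := ((Icc 1 y).filter (fun p : ℕ => p.Prime)).card

/-- `π(y; q, a)`: the number of primes `p ≤ y` with `p ≡ a (mod q)`, where `a` is an integer. -/
def primePiAP (y q : ℕ) (a : ℤ) : ℕ := ((Icc 1 y).filter (fun p : ℕ => p.Prime ∧ (p : ℤ) ≡ a [ZMOD q])).card

/-- The bound of Elliott and Halberstam up to `x`, over the moduli in `𝒬` and the residues in `T(q)`: for all choices of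
lengths `y(q) ≤ x` and of residues `b(q)` the sum of `|π(y(q); q, b(q)) - π(y(q))/φ(q)|` over all `q ∈ 𝒬` with
`b(q) ∈ T(q)` and `(b(q), q) = 1` is at most `x / (log x)^U`. (Thus the maxima over the lengths `y ≤ x` and over the
residues in `T(q)` stand inside the sum over `q`.) -/
def Bound (U x : ℕ) (𝒬 : Finset ℕ) (T : ℕ → Finset ℤ) : Prop :=
  ∀ y : ℕ → ℕ, (∀ q, y q ≤ x) → ∀ b : ℕ → ℤ,
    ∑ q ∈ 𝒬.filter (fun q => b q ∈ T q ∧ Int.gcd (b q) q = 1),
      |(primePiAP (y q) q (b q) : ℝ) - (primePi (y q) : ℝ) / (Nat.totient q : ℝ)| ≤ x / Real.log x ^ U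

/-- The number of the coincidences of two systems over `𝒬`: the triples `(q, l, l')` with `q ∈ 𝒬`, `l ∈ T(q)`,
`l' ∈ T'(q)` and `l ≡ l' (mod q)`. -/
def coincidences (𝒬 : Finset ℕ) (T T' : ℕ → Finset ℤ) : ℕ :=
  ∑ q ∈ 𝒬, ((T q ×ˢ T' q).filter (fun z => z.1 ≡ z.2 [ZMOD q])).card

/-- The integers at a distance of at most `(log x)^W` from `a` (the same for every modulus). -/
noncomputable def near (W x : ℕ) (a : ℤ) : ℕ → Finset ℤ :=
  fun _ => Icc (a - ⌊Real.log x ^ W⌋₊) (a + ⌊Real.log x ^ W⌋₊)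

theorem result (U : ℕ) :
    -- (1) families of systems, arbitrary sets of moduli
    (∃ B x₀ : ℕ, ∀ x : ℕ, x₀ ≤ x → ∀ 𝒬 : Finset ℕ, 𝒬 ⊆ Icc 1 x →
      ∀ (ι : Type) (I : Finset ι) (T : ι → ℕ → Finset ℤ) (H : ℕ),
        (∀ i ∈ I, ∀ q ∈ 𝒬, (T i q).card ≤ H) →
        (∀ i ∈ I, ∀ j ∈ I, i ≠ j → (coincidences 𝒬 (T i) (T j) : ℝ) * (𝒬.card * Real.log x ^ B) ≤ x) →
        (∀ i ∈ I, ¬ Bound U x 𝒬 (T i)) →
        (I.card : ℝ) ≤ H * (𝒬.card : ℝ) ^ 2 / x * Real.log x ^ B) ∧
    -- (2) moduli with at most `r` prime factors, residues of size `exp L`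
    (∀ W r : ℕ, ∃ B x₀ : ℕ, ∀ x : ℕ, x₀ ≤ x → ∀ 𝒬 : Finset ℕ, 𝒬 ⊆ Icc 1 x →
      (∀ q ∈ 𝒬, q.primeFactorsList.length ≤ r) →
      ∀ L : ℝ, 1 ≤ L → (𝒬.card : ℝ) * L ^ r * Real.log x ^ B ≤ x →
      ∀ A : Finset ℤ, (∀ a ∈ A, |(a : ℝ)| ≤ Real.exp L ∧ ¬ Bound U x 𝒬 (near W x a)) →
        (A.card : ℝ) ≤ (𝒬.card : ℝ) ^ 2 / x * Real.log x ^ B) ∧
    -- (3) all moduli, residues of size `exp ((log x)^C)`
    (∀ (W : ℕ) (C θ : ℝ), 1 ≤ C → θ * (2 - 1 / C) < 1 → ∃ B x₀ : ℕ, ∀ x : ℕ, x₀ ≤ x →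
      ∀ Q : ℕ, (Q : ℝ) ≤ (x : ℝ) ^ θ →
      ∀ A : Finset ℤ, (∀ a ∈ A, |(a : ℝ)| ≤ Real.exp (Real.log x ^ C) ∧ ¬ Bound U x (Icc 1 Q) (near W x a)) →
        (A.card : ℝ) ≤ (Q : ℝ) ^ 2 / x * Real.log x ^ B) :=
  ⟨Pool.Agent.V7H6.HR.family U, fun W r => Pool.Agent.V7H6.HR.few_primes U W r,
    fun W C θ hC hθ => Pool.Agent.V7H6.HR.few_all U W C θ hC hθ⟩

end Pool.Agent.Results.MP_a78e8f_nt.HugeResiduesH6
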