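import Pool.Agent.V7H6.ET.Fin
import Pool.Agent.V7H94.ET.Y

set_option autoImplicit false

/-!
# The Elliott-Halberstam conjecture in the norms `L^p` over the residues: the sharp order `p`

For a modulus `q` let `M_p(x, q)` be the mean of order `p` over all `φ(q)` reduced residues `a` modulo `q` of
`|π(x; q, a) - π(x)/φ(q)|`, and `M*_p(x, q)` the same with the maximum over all lengths `y ≤ x`. In the conjecture of
Elliott and Halberstam the mean is replaced by the maximum over `a`. The theorem finds the order `p` of the norm at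
which the conjecture begins: it is `log x / log log x`.

* Below: for every order `p(x) = o(log x / log log x)` and every level `θ < 1` the sum of `M*_{p(x)}(x, q)` over
  `q ≤ x^θ` is at most `C x (log x)^(-A)`, for every `A`, unconditionally.
* From there on: for every order `p(x) ≥ c log x / log log x`, `c > 0` arbitrarily small, the same bound is equivalent
  to the conjecture, and for the means `M_{p(x)}` this holds at every single level `θ`.
* At the order `C log x / log log x` the exponent `A = (1 - θ)/C` is known, and the exponent `A + θ/C` would give the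
  bound of the conjecture with the exponent `A`; for `θ < 1/2` and `C → 0` this is the theorem of Bombieri and
  Vinogradov.

The exceptional residues modulo `q` (at most `q² (log x)^B / x` of them) are from the starting library
(`Pool.Agent.Y856.scale`), the Brun-Titchmarsh inequality too (`Pool.Agent.H617R3.BT.bt2`); the passage from the length
`x` to all lengths `y ≤ x` is by helper94.
-/

namespace Pool.Agent.Results.MP_a78e8f_nt.SharpOrderH6

open Finset

/-- `π(y)`: the number of primes `p ≤ y`. -/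
def primePi (y : ℕ) : ℕ := ((Icc 1 y).filter (fun p : ℕ => p.Prime)).card

/-- `π(y; q, a)`: the number of primes `p ≤ y` with `p ≡ a (mod q)`. -/
def primePiAP (y q a : ℕ) : ℕ := ((Icc 1 y).filter (fun p : ℕ => p.Prime ∧ p ≡ a [MOD q])).card

/-- `|π(y; q, a) - π(y)/φ(q)|` -/
noncomputable def err (y q a : ℕ) : ℝ := |(primePiAP y q a : ℝ) - (primePi y : ℝ) / (Nat.totient q : ℝ)|

/-- The maximum of `|π(y; q, a) - π(y)/φ(q)|` over all lengths `y ≤ x`. -/
noncomputable def errMax (x q a : ℕ) : ℝ :=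
  (range (x + 1)).sup' ⟨0, mem_range.2 (Nat.succ_pos x)⟩ (fun y => err y q a)

/-- The reduced residues modulo `q`. -/
def residues (q : ℕ) : Finset ℕ := (range q).filter (fun a => a.Coprime q)

/-- The mean of order `p` of `f` over the `φ(q)` reduced residues modulo `q`. -/
noncomputable def mean (p : ℝ) (q : ℕ) (f : ℕ → ℝ) : ℝ :=
  ((∑ a ∈ residues q, f a ^ p) / (Nat.totient q : ℝ)) ^ (1 / p)

/-- The order `c log x / log log x`. -/
noncomputable def order (c : ℝ) (x : ℕ) : ℝ := c * Real.log x / Real.log (Real.log x)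

/-- The sum over the moduli `q ≤ x^θ` of the means of order `p` of `E x q`. -/
noncomputable def sumMean (θ p : ℝ) (x : ℕ) (E : ℕ → ℕ → ℕ → ℝ) : ℝ :=
  ∑ q ∈ Icc 1 ⌊(x : ℝ) ^ θ⌋₊, mean p q (E x q)

/-- The sum `S_θ(x)` of the problem, over `q ≤ x^θ`, of the maximum over the units `a` modulo `q`. -/
noncomputable def S (θ : ℝ) (x : ℕ) : ℝ :=
  ∑ q ∈ Finset.Icc 1 ⌊(x : ℝ) ^ θ⌋₊,
    (⨆ a : (ZMod q)ˣ,
      |(((Finset.Icc 1 x).filter
          (fun p : ℕ => Nat.Prime p ∧ ((p : ZMod q) = ((a : (ZMod q)ˣ) : ZMod q)))).card : ℝ)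
        - (Nat.primeCounting x : ℝ) / (Nat.totient q : ℝ)|)

/-- The bound of the conjecture: for every `A > 0`, `F(x) ≤ C x (log x)^(-A)` for all `x > 2`. -/
def Small (F : ℕ → ℝ) : Prop := ∀ A : ℝ, 0 < A → ∃ C : ℝ, 0 < C ∧ ∀ x : ℕ, 2 < x →
  F x ≤ C * (x : ℝ) * (Real.log (x : ℝ)) ^ (-A)

theorem result :
    -- below the order `log x / log log x` the bound holds
    (∀ p : ℕ → ℝ, (∀ x, 2 < x → 0 < p x) → (∀ c : ℝ, 0 < c → ∃ X : ℕ, ∀ x, X ≤ x → p x ≤ order c x) →
      ∀ θ : ℝ, θ < 1 → Small (fun x => sumMean θ (p x) x errMax)) ∧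
    -- from there on it is the conjecture
    (∀ (p : ℕ → ℝ) (c : ℝ), 0 < c → (∀ x, 2 < x → order c x ≤ p x) →
      (∀ θ : ℝ, Small (S θ) ↔ Small (fun x => sumMean θ (p x) x err)) ∧
      ((∀ θ : ℝ, θ < 1 → Small (S θ)) ↔ ∀ θ : ℝ, θ < 1 → Small (fun x => sumMean θ (p x) x errMax))) ∧
    -- at the order `C log x / log log x`: the known exponent and the exponent needed
    (∀ θ C : ℝ, 0 < C → (θ < 1 → ∃ K : ℝ, 0 < K ∧ ∀ x : ℕ, 2 < x →
        sumMean θ (order C x) x errMax ≤ K * x * Real.log x ^ (-((1 - θ) / C))) ∧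
      ∀ x : ℕ, 2 < x → S θ x ≤ Real.log x ^ (θ / C) * sumMean θ (order C x) x err) ∧
    -- below the order, up to `Q = x / (log x)^(B p)`
    (∀ U : ℕ, ∃ B x₀ : ℕ, ∀ x : ℕ, x₀ ≤ x → ∀ Q : ℕ, 1 ≤ Q → ∀ p : ℝ, 1 ≤ p →
      p * (B * Real.log (Real.log x)) ≤ Real.log (x / Q) →
      ∑ q ∈ Icc 1 Q, mean p q (errMax x q) ≤ x / Real.log x ^ U) :=
  Pool.Agent.V7H6.ET.final (Pool.Agent.V7H94.ET.t_Y Pool.Agent.V7H6.ET.t_PHI)

end Pool.Agent.Results.MP_a78e8f_nt.SharpOrderH6
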